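import Pool.Agent.P8H16.XP.Stm

/-!
# Project XP: package PRT, the list of the pairs
-/

set_option autoImplicit false

open Finset

namespace Pool.Agent.P8H42.XP

open Pool.Agent.P8H16.XP

/-- a list of pairs whose entries are exactly the elements of `X`, each once -/
def Lists (L : List (ℕ × ℕ)) (X : Finset ℕ) : Prop :=
  (L.flatMap fun q => [q.1, q.2]).Nodup ∧ ∀ x, (x ∈ L.flatMap fun q => [q.1, q.2]) ↔ x ∈ X

theorem lists_cons {L : List (ℕ × ℕ)} {X : Finset ℕ} (h : Lists L X) {a b : ℕ} (hab : a ≠ b)
    (ha : a ∉ X) (hb : b ∉ X) {Y : Finset ℕ} (hY : ∀ x, x ∈ Y ↔ (x = a ∨ x = b ∨ x ∈ X)) :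
    Lists ((a, b) :: L) Y := by
  obtain ⟨h1, h2⟩ := h
  have e : (((a, b) :: L).flatMap fun q => [q.1, q.2]) = a :: b :: (L.flatMap fun q => [q.1, q.2]) := by
    simp [List.flatMap_cons]
  constructor
  · rw [e, List.nodup_cons, List.nodup_cons]
    refine ⟨?_, ?_, h1⟩
    · intro h
      rcases List.mem_cons.1 h with h | h
      · exact hab h
      · exact ha ((h2 a).1 h)
    · intro h
      exact hb ((h2 b).1 h)
  · intro x
    rw [e, List.mem_cons, List.mem_cons, h2 x, hY x]

theorem aux : ∀ (n : ℕ) (A B M : Finset ℕ), A.card + M.card = n → Disjoint A B → Disjoint A M → Disjoint B M →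
    A.card = B.card → Even M.card →
    ∃ L : List (ℕ × ℕ), Lists L (A ∪ B ∪ M) ∧ ∀ q ∈ L, (q.1 ∈ A ∧ q.2 ∈ B) ∨ (q.1 ∈ M ∧ q.2 ∈ M) := by
  intro n
  induction n using Nat.strong_induction_on with
  | _ n ih =>
    intro A B M hn hAB hAM hBM hc he
    by_cases hA : A.Nonempty
    · obtain ⟨a, ha⟩ := hA
      have hBn : B.Nonempty := by
        rw [← card_pos, ← hc]
        exact card_pos.2 ⟨a, ha⟩
      obtain ⟨b, hb⟩ := hBn
      have ca : (A.erase a).card = A.card - 1 := card_erase_of_mem ha
      have cb : (B.erase b).card = B.card - 1 := card_erase_of_mem hb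
      have pa : 0 < A.card := card_pos.2 ⟨a, ha⟩
      have haB : a ∉ B := Finset.disjoint_left.1 hAB ha
      have haM : a ∉ M := Finset.disjoint_left.1 hAM ha
      have hbA : b ∉ A := Finset.disjoint_right.1 hAB hb
      have hbM : b ∉ M := Finset.disjoint_left.1 hBM hb
      obtain ⟨L, h1, h2⟩ := ih ((A.erase a).card + M.card) (by omega) (A.erase a) (B.erase b) M rfl
        (hAB.mono (erase_subset _ _) (erase_subset _ _)) (hAM.mono_left (erase_subset _ _))
        (hBM.mono_left (erase_subset _ _)) (by omega) he
      refine ⟨(a, b) :: L, lists_cons h1 ?_ ?_ ?_ ?_, ?_⟩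
      · rintro rfl
        exact haB hb
      · simp only [mem_union, mem_erase, not_or, not_and]
        exact ⟨⟨fun h => absurd rfl h, fun _ => haB⟩, haM⟩
      · simp only [mem_union, mem_erase, not_or, not_and]
        exact ⟨⟨fun _ => hbA, fun h => absurd rfl h⟩, hbM⟩
      · intro x
        simp only [mem_union, mem_erase]
        constructor
        · rintro ((h | h) | h)
          · by_cases hx : x = a
            · exact Or.inl hx
            · exact Or.inr (Or.inr (Or.inl (Or.inl ⟨hx, h⟩)))
          · by_cases hx : x = b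
            · exact Or.inr (Or.inl hx)
            · exact Or.inr (Or.inr (Or.inl (Or.inr ⟨hx, h⟩)))
          · exact Or.inr (Or.inr (Or.inr h))
        · rintro (h | h | ((h | h) | h))
          · exact Or.inl (Or.inl (h ▸ ha))
          · exact Or.inl (Or.inr (h ▸ hb))
          · exact Or.inl (Or.inl h.2)
          · exact Or.inl (Or.inr h.2)
          · exact Or.inr h
      · intro q hq
        rcases List.mem_cons.1 hq with h | h
        · subst h
          exact Or.inl ⟨ha, hb⟩
        · rcases h2 q h with h | h
          · exact Or.inl ⟨mem_of_mem_erase h.1, mem_of_mem_erase h.2⟩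
          · exact Or.inr h
    · rw [not_nonempty_iff_eq_empty] at hA
      have hB : B = ∅ := by
        rw [← card_eq_zero, ← hc, hA, card_empty]
      subst hA
      subst hB
      by_cases hM : M.Nonempty
      · obtain ⟨a, ha⟩ := hM
        have pm : 0 < M.card := card_pos.2 ⟨a, ha⟩
        have ca : (M.erase a).card = M.card - 1 := card_erase_of_mem ha
        have hne : (M.erase a).Nonempty := by
          rw [← card_pos, ca]
          obtain ⟨r, hr⟩ := he
          omega
        obtain ⟨b, hb⟩ := hne
        have cb : ((M.erase a).erase b).card = (M.erase a).card - 1 := card_erase_of_mem hb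
        have pb : 0 < (M.erase a).card := card_pos.2 ⟨b, hb⟩
        have hba : b ≠ a := (mem_erase.1 hb).1
        have hbM : b ∈ M := (mem_erase.1 hb).2
        obtain ⟨L, h1, h2⟩ := ih ((∅ : Finset ℕ).card + ((M.erase a).erase b).card) (by simp at hn ⊢; omega) ∅ ∅
          ((M.erase a).erase b) rfl (disjoint_empty_left _) (disjoint_empty_left _) (disjoint_empty_left _) rfl (by
            rw [cb, ca]
            obtain ⟨r, hr⟩ := he
            exact ⟨r - 1, by omega⟩)
        refine ⟨(a, b) :: L, lists_cons h1 hba.symm ?_ ?_ ?_, ?_⟩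
        · simp
        · simp
        · intro x
          simp only [empty_union, mem_erase]
          constructor
          · intro h
            by_cases hx : x = a
            · exact Or.inl hx
            · by_cases hy : x = b
              · exact Or.inr (Or.inl hy)
              · exact Or.inr (Or.inr ⟨hy, hx, h⟩)
          · rintro (h | h | h)
            · exact h ▸ ha
            · exact h ▸ hbM
            · exact h.2.2
        · intro q hq
          rcases List.mem_cons.1 hq with h | h
          · subst h
            exact Or.inr ⟨ha, hbM⟩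
          · rcases h2 q h with h | h
            · exact absurd h.1 (notMem_empty _)
            · exact Or.inr ⟨mem_of_mem_erase (mem_of_mem_erase h.1), mem_of_mem_erase (mem_of_mem_erase h.2)⟩
      · rw [not_nonempty_iff_eq_empty] at hM
        subst hM
        refine ⟨[], ⟨?_, ?_⟩, ?_⟩
        · simp
        · intro x
          simp
        · intro q hq
          exact absurd hq (List.not_mem_nil)

theorem prt : S_PRT := by
  intro A B M hAB hAM hBM hc he
  obtain ⟨L, ⟨h1, h2⟩, h3⟩ := aux _ A B M rfl hAB hAM hBM hc he
  exact ⟨L, h1, h2, h3⟩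

end Pool.Agent.P8H42.XP
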